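import Pool.Agent.Lib.MP_66dece_an.Alg

set_option autoImplicit false

namespace Pool.Agent.Results.MP_66dece_an.AlgebraLevel

open Pool.Agent.Lib.MP_66dece_an

universe u v

/-- If every countable subset of the Banach space `X` lies in a complemented separable subspace
which has one of (the bounded compact approximation property; no copy of `ℓ₁`; a Schauder
decomposition with infinitely many infinite dimensional members; a sequence with an upper
`2`-estimate), then `L(X)/K(X)` is not isomorphic as an algebra to the unitization of `ℓ₁(Γ)` with
the coordinatewise product, for any uncountable `Γ`. -/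
theorem result : ∀ (Γ : Type v) [Uncountable Γ] (X : Type u) [NormedAddCommGroup X]
    [NormedSpace ℂ X] [CompleteSpace X], Nice X →
    ¬ ∃ Ψ : CalkinAlgebra X ≃L[ℂ] UnitEllOne Γ, PreservesProducts Ψ := by
  intro Γ _ X _ _ _ hX
  rintro ⟨Ψ, hΨ⟩
  exact not_multiplicative (Γ := Γ) hX ⟨Ψ, hΨ⟩

end Pool.Agent.Results.MP_66dece_an.AlgebraLevel
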