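import Pool.Agent.Lib.MP_66dece_an.Alg

set_option autoImplicit false

namespace Pool.Agent.Results.MP_66dece_an.ComplementedSubspaces

open Pool.Agent.Lib.MP_66dece_an

universe u v w

/-- Let `X` be any Banach space whose Calkin algebra is isomorphic as an algebra to the unitization
of `ℓ₁(Γ)`, `Γ` uncountable. Every complemented separable subspace `Y` of `X` (`i` the inclusion,
`r` the projection) with one of the four properties in `AlgGood` has a finite dimensional Calkin
algebra. -/
theorem result : ∀ (Γ : Type v) [Uncountable Γ] (X : Type u) [NormedAddCommGroup X]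
    [NormedSpace ℂ X] [CompleteSpace X] (Ψ : CalkinAlgebra X ≃L[ℂ] UnitEllOne Γ),
    PreservesProducts Ψ →
    ∀ (Y : Type w) [NormedAddCommGroup Y] [NormedSpace ℂ Y] [CompleteSpace Y], AlgGood Y →
    ∀ (i : Y →L[ℂ] X) (r : X →L[ℂ] Y), r.comp i = ContinuousLinearMap.id ℂ Y →
    FiniteDimensional ℂ (CalkinAlgebra Y) := by
  intro Γ _ X _ _ _ Ψ hΨ Y _ _ _ hY i r hri
  exact finiteDimensional_calkin (Γ := Γ) (Ψ := Ψ) hY hΨ hri

end Pool.Agent.Results.MP_66dece_an.ComplementedSubspaces
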