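import Pool.Agent.Lib.MP_66dece_an.Core

set_option autoImplicit false

namespace Pool.Agent.Results.MP_66dece_an.SeparableLinear

open Pool.Agent.Lib.MP_66dece_an

universe u v

/-- If `X` is a separable Banach space which has the bounded compact approximation property or
contains no copy of `ℓ₁`, then `L(X)/K(X)` is not isomorphic, even as a topological vector space,
to `ℓ₁(Γ) ⊕ ℂ`, for any uncountable `Γ` (for example `Γ = {0,1}^ℕ`). -/
theorem result : ∀ (Γ : Type v) [Uncountable Γ] (X : Type u) [NormedAddCommGroup X]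
    [NormedSpace ℂ X] [CompleteSpace X], Good X →
    IsEmpty (CalkinAlgebra X ≃L[ℂ] UnitEllOne Γ) := by
  intro Γ _ X _ _ _ hX
  refine ⟨fun Ψ => ?_⟩
  exact (not_isomorphic (Γ := Γ) hX).false Ψ

end Pool.Agent.Results.MP_66dece_an.SeparableLinear
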